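import Pool.Agent.R688.FF.Fin

/-!
# MP_c591d8_ag, Q1: F-fullness is `m`-adically stable

Let `R` be a Noetherian local ring of characteristic `p` and `x` a nonzerodivisor in the maximal
ideal `m` such that `R / (x)` is F-full. Then there is an integer `N` such that `R / (x + δ)` is
F-full for every `δ ∈ m ^ N`.
-/

namespace Pool.Agent.Results.MP_c591d8_ag.FFullStable

open Pool.Agent.R688.AN.Cech Pool.Agent.R688.FF

universe u

/-- The quotient ring `R / (y)` has characteristic `p` and is F-full; its local cohomology is
computed by the Čech complex on the images of the family `f`. -/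
def QuotientIsFFull (p : ℕ) [Fact p.Prime] {R : Type u} [CommRing R] {n : ℕ} (f : Fin n → R)
    (y : R) : Prop :=
  IsFFull p (fun j => Ideal.Quotient.mk (Ideal.span {y}) (f j))

theorem result (p : ℕ) [Fact p.Prime] (R : Type u) [CommRing R] [IsNoetherianRing R]
    [IsLocalRing R] [CharP R p] (n : ℕ) (f : Fin n → R)
    (hf : (Ideal.span (Set.range f)).radical = IsLocalRing.maximalIdeal R)
    (x : R) (hxm : x ∈ IsLocalRing.maximalIdeal R) (hx : x ∈ nonZeroDivisors R)
    (h : QuotientIsFFull p f x) :
    ∃ N : ℕ, ∀ δ ∈ (IsLocalRing.maximalIdeal R) ^ N, QuotientIsFFull p f (x + δ) :=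
  main p f hf x hxm (fun r hr => (mem_nonZeroDivisors_iff.mp hx).1 r hr) h

end Pool.Agent.Results.MP_c591d8_ag.FFullStable
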